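import Mathlib
import Pool.Agent.H17.BA

namespace Pool.Agent.H17.Known.K_27bb78_al

open Set Cardinal Pool.Agent.H17.BA

theorem result : ∃ (m : Cardinal.{0}) (T : Type) (A : T → Type) (_ : ∀ t, BooleanAlgebra (A t)),
    ℵ₀ ≤ m ∧ (∀ t, Nontrivial (A t)) ∧
      (∃ (M : Type) (_ : BooleanAlgebra M) (j : ∀ t, BoundedLatticeHom (A t) M),
        Prod0 m j ∧ DenseMeets Set.Finite j) ∧
      ∃ (B : Type) (_ : BooleanAlgebra B) (i : ∀ t, BoundedLatticeHom (A t) B), Prod0 m i ∧
        ∀ (M : Type) [BooleanAlgebra M] (j : ∀ t, BoundedLatticeHom (A t) M),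
          Prod0 m j → DenseMeets Set.Finite j →
            ¬ ∃ h : BoundedLatticeHom B M, MHom m h ∧ ∀ t a, h (i t a) = j t a := by
  refine ⟨#(Set (ℕ → Bool)), ℕ, fun _ => Set Bool, inferInstance, aleph0_le_mk _,
    fun _ => inferInstance, ?_, _, inferInstance, cyl, cyl_prod le_rfl, fun M _ j hj hd ⟨h, h1, h2⟩ =>
      no_hom le_rfl (nontriv hj.2.2.1) h h1 fun x => atomless (fun _ t hs => hs.insert t)
        (fun s hs e => infinite_univ (e ▸ hs)) hj.2.2.1 hd x _ fun t => ?_⟩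
  · obtain ⟨M, _, j, h1, -, h2⟩ := exists_min (T := ℕ) (small := Set.Finite) le_rfl finite_empty
      finite_singleton (fun _ _ => Finite.union) fun _ => id
    exact ⟨M, _, j, h1, h2⟩
  · rw [← h2]
    exact OrderHomClass.mono h (singleton_subset_iff.2 rfl)

end Pool.Agent.H17.Known.K_27bb78_al
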