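import Mathlib
import Pool.Agent.H17.BA

namespace Pool.Agent.H17.Known.K_69a01b_lc

open Set Cardinal TopologicalSpace Pool.Agent.H17.BA

variable {A B : Type} [BooleanAlgebra A] [BooleanAlgebra B]

/-- `(J, M, m)`-extensions. -/
def IsExt (m : Cardinal) (J M : Set (Set A)) (i : BoundedLatticeHom A B) : Prop :=
  MAlg m B ∧ Function.Injective i ∧ (∀ S ∈ J, ∀ a, IsLUB S a → IsLUB (i '' S) (i a)) ∧
    (∀ S ∈ M, ∀ a, IsGLB S a → IsGLB (i '' S) (i a)) ∧ MGen m (range i)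

/-- `m`-completions. -/
def IsCompletion (m : Cardinal) (i : BoundedLatticeHom A B) : Prop :=
  MAlg m B ∧ Function.Injective i ∧ (∀ b ≠ (⊥ : B), ∃ a, i a ≠ ⊥ ∧ i a ≤ b) ∧ MGen m (range i)

theorem result : ∃ (m : Cardinal.{0}) (A : Type) (_ : BooleanAlgebra A) (J M : Set (Set A)),
    ℵ₀ ≤ m ∧ (∀ S ∈ J, #S ≤ m ∧ ∃ a, IsLUB S a) ∧ (∀ S ∈ M, #S ≤ m ∧ ∃ a, IsGLB S a) ∧
      ∃ (B : Type) (_ : BooleanAlgebra B) (i : BoundedLatticeHom A B)
        (B' : Type) (_ : BooleanAlgebra B') (i' : BoundedLatticeHom A B'),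
        IsCompletion m i ∧ IsExt m J M i' ∧
          ¬ ∃ h : BoundedLatticeHom B' B, MHom m h ∧ ∀ a, h (i' a) = i a := by
  let i' : BoundedLatticeHom (Clopens (ℕ → Bool)) (Set (ℕ → Bool)) :=
    { toFun U := U
      map_sup' _ _ := rfl
      map_inf' _ _ := rfl
      map_top' := rfl
      map_bot' := rfl }
  have den : ∀ b ≠ (⊥ : Heyting.Regular (Opens (ℕ → Bool))), ∃ a, cr a ≠ ⊥ ∧ cr a ≤ b := fun b hb => by
    obtain ⟨x, hx⟩ := reg_ne_bot.1 hb
    obtain ⟨V, h1, h2, h3⟩ := isTopologicalBasis_isClopen.exists_subset_of_mem_open hx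
      (b : Opens (ℕ → Bool)).isOpen
    exact ⟨⟨V, h1⟩, reg_ne_bot.2 ⟨x, h2⟩, h3⟩
  have cl : ∀ (x : ℕ → Bool) (t : ℕ), IsClopen {y : ℕ → Bool | y t = x t} := fun x t =>
    (isClopen_discrete {x t}).preimage (continuous_apply t)
  refine ⟨#(Set (ℕ → Bool)), Clopens (ℕ → Bool), inferInstance, ∅, ∅, aleph0_le_mk _, by simp, by simp,
    _, inferInstance, cr, _, inferInstance, i', ⟨malg_reg _ _, fun U V h => Clopens.ext (congrArg
      (fun U : Heyting.Regular (Opens (ℕ → Bool)) => ((U : Opens (ℕ → Bool)) : Set (ℕ → Bool))) h), den,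
      mgen_of_dense card_reg fun b hb => ?_⟩, ⟨malg_set _ _, fun U V h => Clopens.ext h, by simp,
      by simp, mgen_of_dense le_rfl fun b hb => ?_⟩, fun ⟨h, h1, h2⟩ =>
      no_hom le_rfl (reg_ne_bot.2 ⟨fun _ => true, trivial⟩) h h1 fun x => ?_⟩
  · obtain ⟨a, h1, h2⟩ := den b hb
    exact ⟨{cr a}, singleton_subset_iff.2 ⟨a, rfl⟩, _, h1, isGLB_singleton, h2⟩
  · obtain ⟨x, hx⟩ := nonempty_iff_ne_empty.2 hb
    exact ⟨_, range_subset_iff.2 fun t => ⟨⟨_, cl x t⟩, rfl⟩, {x}, singleton_ne_empty x,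
      cyl_glb x, singleton_subset_iff.2 hx⟩
  · by_contra e
    have sub : ((h {x} : Opens (ℕ → Bool)) : Set (ℕ → Bool)) ⊆ {x} := fun y hy => funext fun t => by
      have : h {x} ≤ cr ⟨_, cl x t⟩ := h2 _ ▸ OrderHomClass.mono h (singleton_subset_iff.2 rfl)
      exact this hy
    have ho := (h {x} : Opens (ℕ → Bool)).isOpen
    rw [(Nonempty.subset_singleton_iff (reg_ne_bot.1 e)).1 sub] at ho
    obtain ⟨I, u, hu, hI⟩ := isOpen_pi_iff.1 ho x rfl
    obtain ⟨t, ht⟩ := I.exists_notMem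
    have : Function.update x t (!x t) ∈ ({x} : Set (ℕ → Bool)) := hI fun s hs => by
      rw [Function.update_of_ne (fun e' : s = t => ht (e' ▸ hs))]
      exact (hu s hs).2
    have := congrFun (mem_singleton_iff.1 this) t
    simp at this

end Pool.Agent.H17.Known.K_69a01b_lc
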