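import Mathlib
import Pool.Agent.H17.BA

namespace Pool.Agent.H17.Known.K_6fd33d_al

open Set Cardinal Pool.Agent.H17.BA

theorem result : ∃ (n m : Cardinal.{0}) (T : Type) (A : T → Type) (_ : ∀ t, BooleanAlgebra (A t)),
    ℵ₀ ≤ n ∧ n ≤ m ∧ (∀ t, Nontrivial (A t)) ∧
      (∃ (M : Type) (_ : BooleanAlgebra M) (j : ∀ t, BoundedLatticeHom (A t) M),
        Prod0 m j ∧ Indep (fun s => #s ≤ n) j ∧ DenseMeets (fun s => #s ≤ n) j) ∧
      ∃ (B : Type) (_ : BooleanAlgebra B) (i : ∀ t, BoundedLatticeHom (A t) B),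
        Prod0 m i ∧ Indep (fun s => #s ≤ n) i ∧
        ∀ (M : Type) [BooleanAlgebra M] (j : ∀ t, BoundedLatticeHom (A t) M),
          Prod0 m j → Indep (fun s => #s ≤ n) j → DenseMeets (fun s => #s ≤ n) j →
            ¬ ∃ h : BoundedLatticeHom B M, MHom m h ∧ ∀ t a, h (i t a) = j t a := by
  refine ⟨ℵ₀, #(Set (ℝ → Bool)), ℝ, fun _ => Set Bool, inferInstance, le_rfl, aleph0_le_mk _,
    fun _ => inferInstance, ?_, _, inferInstance, cyl, cyl_prod le_rfl, cyl_indep _,
    fun M _ j hj hi hd ⟨h, h1, h2⟩ => ?_⟩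
  · simp only [le_aleph0_iff_set_countable]
    exact exists_min (T := ℝ) (small := Set.Countable) le_rfl countable_empty
      countable_singleton (fun _ _ => Countable.union) fun _ => Finite.countable
  · simp only [le_aleph0_iff_set_countable] at hi hd
    refine no_hom le_rfl (nontriv hj.2.2.1) h h1 fun x => atomless (fun _ t hs => hs.insert t)
      (fun s hs e => not_countable_univ (e ▸ hs)) hi hd x _ fun t => ?_
    rw [← h2]
    exact OrderHomClass.mono h (singleton_subset_iff.2 rfl)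

end Pool.Agent.H17.Known.K_6fd33d_al
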