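import Mathlib
import Pool.Agent.H17.BA

namespace Pool.Agent.H17.Known.K_705fed_lc

open Set Cardinal Pool.Agent.H17.BA

/-- `B` is the quotient of an `m`-field of sets by an `m`-ideal. -/
def MRep (m : Cardinal) (B : Type) [BooleanAlgebra B] : Prop :=
  ∃ (X : Type) (F : BooleanSubalgebra (Set X)) (h : BoundedLatticeHom F B),
    (∀ S : Set (Set X), S ⊆ F → #S ≤ m → ⋃₀ S ∈ F ∧ ⋂₀ S ∈ F) ∧ Function.Surjective h ∧
      ∀ S : Set F, #S ≤ m → (∀ s ∈ S, h s = ⊥) → ∀ u : F, (u : Set X) = ⋃ s ∈ S, (s : Set X) → h u = ⊥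

theorem result : ∃ (n m : Cardinal.{0}) (T : Type) (A : T → Type) (_ : ∀ t, BooleanAlgebra (A t)),
    ℵ₀ ≤ n ∧ n ≤ m ∧ (∀ t, Nontrivial (A t) ∧ MAlg m (A t) ∧ MRep m (A t)) ∧
      (∃ (M : Type) (_ : BooleanAlgebra M) (j : ∀ t, BoundedLatticeHom (A t) M),
        Prod0 m j ∧ Indep (fun s => #s ≤ n) j ∧ DenseMeets (fun s => #s ≤ n) j) ∧
      ∀ (M : Type) [BooleanAlgebra M] (j : ∀ t, BoundedLatticeHom (A t) M),
        Prod0 m j → Indep (fun s => #s ≤ n) j → DenseMeets (fun s => #s ≤ n) j → ¬ MRep m M := by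
  refine ⟨ℵ₀, #(Set (ℝ → Bool)), ℝ, fun _ => Set Bool, inferInstance, le_rfl, aleph0_le_mk _,
    fun _ => ⟨inferInstance, malg_set _ _, Bool, ⊤, BooleanSubalgebra.subtype _,
      fun _ _ _ => ⟨trivial, trivial⟩, fun a => ⟨⟨a, trivial⟩, rfl⟩, fun S _ h u hu => ?_⟩, ?_,
    fun M _ j hj hi hd ⟨X, F, h, h1, h2, h3⟩ => ?_⟩
  · exact hu.trans (iUnion_eq_empty.2 fun s => iUnion_eq_empty.2 (h s))
  · simp only [le_aleph0_iff_set_countable]
    exact exists_min (T := ℝ) (small := Set.Countable) le_rfl countable_empty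
      countable_singleton (fun _ _ => Countable.union) fun _ => Finite.countable
  · classical
    simp only [le_aleph0_iff_set_countable] at hi hd
    choose G hG using fun t => h2 (j t {true})
    let H : ℝ → Bool → F := fun t v => if v = true then G t else (G t)ᶜ
    have hH : ∀ t v, h (H t v) = j t {v} := fun t v => by
      cases v
      · have : ({false} : Set Bool) = {true}ᶜ := by ext v; cases v <;> simp
        rw [this, map_compl', ← hG, ← map_compl']
        rfl
      · simp [H, hG]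
    have c1 : #(ℝ → Bool) ≤ #(Set (ℝ → Bool)) := (cantor _).le.trans mk_set.ge
    have c2 : #ℝ ≤ #(ℝ → Bool) := (cantor _).le.trans (by simp)
    let Z : (ℝ → Bool) → F := fun x => ⟨_, (h1 (range fun t => H t (x t))
      (range_subset_iff.2 fun t => (H t (x t)).2) (mk_range_le.trans (c2.trans c1))).2⟩
    refine nontriv hj.2.2.1 ((map_top h).symm.trans (h3 (range Z) (mk_range_le.trans c1)
      (forall_mem_range.2 fun x => atomless (fun _ t hs => hs.insert t)
        (fun s hs e => not_countable_univ (e ▸ hs)) hi hd x _ fun t => ?_) ⊤ ?_))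
    · rw [← hH]
      exact OrderHomClass.mono h (show (Z x : Set X) ⊆ H t (x t) from
        sInter_subset_of_mem (mem_range_self t))
    · refine (eq_univ_of_forall fun p => mem_biUnion
        (mem_range_self fun t => decide (p ∈ (G t : Set X))) ?_).symm
      show p ∈ ⋂₀ range _
      rintro _ ⟨t, rfl⟩
      by_cases e : p ∈ (G t : Set X) <;> simp [H, e]

end Pool.Agent.H17.Known.K_705fed_lc
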